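import Mathlib

/-!
# A word of odd length that is non-surjective on `PSL(2, 2 ^ n)`

The word `w = x⁶ y x⁻² y⁻¹ x² y x⁻³ y⁻¹ x y x⁻¹ y⁻¹` has length `21`.  With `s = tr x` and
`c = tr (x⁻¹ (y x y⁻¹))` its trace polynomial is congruent modulo `2` to `G ^ 3 + G` with
`G = s ^ 3 c + s c + s`, so over a field with `2 ^ n` elements, `3 ∤ n`, the word map of `w`
never takes a value of trace `1`.
-/

open Matrix
open scoped MatrixGroups

namespace Pool.Agent.Results.MP_215b2d_al.OddWord

section algebra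

variable {R : Type*} [CommRing R]

/-- The combination `e0 + e1 a + e2 b + e3 a b`. -/
def comb (a b : Matrix (Fin 2) (Fin 2) R) (e0 e1 e2 e3 : R) : Matrix (Fin 2) (Fin 2) R :=
  e0 • (1 : Matrix (Fin 2) (Fin 2) R) + e1 • a + e2 • b + e3 • (a * b)

lemma comb_mul_a {a b : Matrix (Fin 2) (Fin 2) R} {s c : R}
    (haa : a * a = s • a - 1) (hba : b * a = -(a * b) + s • a + s • b - c • 1)
    (e0 e1 e2 e3 : R) :
    comb a b e0 e1 e2 e3 * a =
      comb a b (-e1 - c * e2 - s * e3) (e0 + s * e1 + s * e2 + (s ^ 2 - c) * e3)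
        (s * e2 + e3) (-e2) := by
  have h3 : a * b * a = (-s) • (1 : Matrix (Fin 2) (Fin 2) R) + (s ^ 2 - c) • a + b := by
    rw [mul_assoc, hba, mul_sub, mul_add, mul_add, mul_neg, ← mul_assoc, haa, mul_smul_comm,
      mul_smul_comm, mul_smul_comm, haa, sub_mul, smul_mul_assoc, mul_one, one_mul]
    module
  unfold comb
  rw [add_mul, add_mul, add_mul, smul_mul_assoc, smul_mul_assoc, smul_mul_assoc, smul_mul_assoc,
    h3, hba, haa, one_mul]
  module

lemma comb_mul_b {a b b' : Matrix (Fin 2) (Fin 2) R} {s : R} (hb' : b' = s • 1 - b)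
    (hbb : b * b = s • b - 1) (e0 e1 e2 e3 : R) :
    comb a b e0 e1 e2 e3 * b' =
      comb a b (s * e0 + e2) (s * e1 + e3) (-e0) (-e1) := by
  have h3 : a * b * b = s • (a * b) - a := by
    rw [mul_assoc, hbb, mul_sub, mul_smul_comm, mul_one]
  rw [hb', mul_sub, mul_smul_comm, mul_one]
  unfold comb
  rw [add_mul, add_mul, add_mul, smul_mul_assoc e0 1 b, smul_mul_assoc e1 a b,
    smul_mul_assoc e2 b b, smul_mul_assoc e3 (a * b) b, h3, hbb, one_mul]
  module

lemma trace_comb (a b : Matrix (Fin 2) (Fin 2) R) (s c : R) (ha : a.trace = s) (hb : b.trace = s)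
    (hab : (a * b).trace = s ^ 2 - c) (e0 e1 e2 e3 : R) :
    (comb a b e0 e1 e2 e3).trace = 2 * e0 + s * e1 + s * e2 + (s ^ 2 - c) * e3 := by
  unfold comb
  rw [trace_add, trace_add, trace_add, trace_smul, trace_smul, trace_smul, trace_smul, ha, hb,
    hab, trace_one]
  simp only [Fintype.card_fin, smul_eq_mul]
  push_cast
  ring

/-- The trace of the word in characteristic `2`, as a polynomial in `s = tr a = tr b` and
`c = s ^ 2 - tr (a b)`: it is `G ^ 3 + G` with `G = s ^ 3 c + s c + s`. -/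
lemma trace_word (h2 : (2 : R) = 0) (a b b' : Matrix (Fin 2) (Fin 2) R) (s c : R)
    (ha : a.trace = s) (hb : b.trace = s) (hab : (a * b).trace = s ^ 2 - c)
    (haa : a * a = s • a - 1) (hbb' : b * b = s • b - 1)
    (hba : b * a = -(a * b) + s • a + s • b - c • 1) (hb' : b' = s • 1 - b) :
    (a ^ 6 * b' ^ 2 * a ^ 2 * b' ^ 3 * a * b').trace =
      (s ^ 3 * c + s * c + s) ^ 3 + (s ^ 3 * c + s * c + s) := by
  have hbb := hbb'
  have k1 : comb a b (1) (0) (0) (0) * a =
      comb a b (0) (1) (0) (0) := by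
    rw [comb_mul_a haa hba]
    congr 1
    · linear_combination (0) * h2
    · linear_combination (0) * h2
    · linear_combination (0) * h2
    · linear_combination (0) * h2
  have k2 : comb a b (0) (1) (0) (0) * a =
      comb a b (1) (s) (0) (0) := by
    rw [comb_mul_a haa hba]
    congr 1
    · linear_combination (-1) * h2
    · linear_combination (0) * h2
    · linear_combination (0) * h2
    · linear_combination (0) * h2
  have k3 : comb a b (1) (s) (0) (0) * a =
      comb a b (s) (s^2 + 1) (0) (0) := by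
    rw [comb_mul_a haa hba]
    congr 1
    · linear_combination (-s) * h2
    · linear_combination (0) * h2
    · linear_combination (0) * h2
    · linear_combination (0) * h2
  have k4 : comb a b (s) (s^2 + 1) (0) (0) * a =
      comb a b (s^2 + 1) (s^3) (0) (0) := by
    rw [comb_mul_a haa hba]
    congr 1
    · linear_combination (-s^2 - 1) * h2
    · linear_combination (s) * h2
    · linear_combination (0) * h2
    · linear_combination (0) * h2
  have k5 : comb a b (s^2 + 1) (s^3) (0) (0) * a =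
      comb a b (s^3) (s^4 + s^2 + 1) (0) (0) := by
    rw [comb_mul_a haa hba]
    congr 1
    · linear_combination (-s^3) * h2
    · linear_combination (0) * h2
    · linear_combination (0) * h2
    · linear_combination (0) * h2
  have k6 : comb a b (s^3) (s^4 + s^2 + 1) (0) (0) * a =
      comb a b (s^4 + s^2 + 1) (s^5 + s) (0) (0) := by
    rw [comb_mul_a haa hba]
    congr 1
    · linear_combination (-s^4 - s^2 - 1) * h2
    · linear_combination (s^3) * h2
    · linear_combination (0) * h2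
    · linear_combination (0) * h2
  have k7 : comb a b (s^4 + s^2 + 1) (s^5 + s) (0) (0) * b' =
      comb a b (s^5 + s^3 + s) (s^6 + s^2) (s^4 + s^2 + 1) (s^5 + s) := by
    rw [comb_mul_b hb' hbb]
    congr 1
    · linear_combination (0) * h2
    · linear_combination (0) * h2
    · linear_combination (-s^4 - s^2 - 1) * h2
    · linear_combination (-s^5 - s) * h2
  have k8 : comb a b (s^5 + s^3 + s) (s^6 + s^2) (s^4 + s^2 + 1) (s^5 + s) * b' =
      comb a b (s^6 + 1) (s^7 + s^5 + s^3 + s) (s^5 + s^3 + s) (s^6 + s^2) := by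
    rw [comb_mul_b hb' hbb]
    congr 1
    · linear_combination (s^4 + s^2) * h2
    · linear_combination (0) * h2
    · linear_combination (-s^5 - s^3 - s) * h2
    · linear_combination (-s^6 - s^2) * h2
  have k9 : comb a b (s^6 + 1) (s^7 + s^5 + s^3 + s) (s^5 + s^3 + s) (s^6 + s^2) * a =
      comb a b (s^5*c + s^5 + s^3*c + s*c + s) (s^6*c + s^6 + s^4 + s^2*c + 1) (s^4) (s^5 + s^3 + s) := by
    rw [comb_mul_a haa hba]
    congr 1
    · linear_combination (-s^7 - s^5*c - s^5 - s^3*c - s^3 - s*c - s) * h2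
    · linear_combination (s^8 - s^6*c + s^6 + s^4 - s^2*c + s^2) * h2
    · linear_combination (s^6 + s^2) * h2
    · linear_combination (-s^5 - s^3 - s) * h2
  have k10 : comb a b (s^5*c + s^5 + s^3*c + s*c + s) (s^6*c + s^6 + s^4 + s^2*c + 1) (s^4) (s^5 + s^3 + s) * a =
      comb a b (s^6*c + s^4*c + s^2*c + s^2 + 1) (s^7*c + s^3*c + s^3) (s^3 + s) (s^4) := by
    rw [comb_mul_a haa hba]
    congr 1
    · linear_combination (-s^6*c - s^6 - s^4*c - s^4 - s^2*c - s^2 - 1) * h2
    · linear_combination (s^7 + 2*s^5 + s) * h2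
    · linear_combination (s^5) * h2
    · linear_combination (-s^4) * h2
  have k11 : comb a b (s^6*c + s^4*c + s^2*c + s^2 + 1) (s^7*c + s^3*c + s^3) (s^3 + s) (s^4) * b' =
      comb a b (s^7*c + s^5*c + s^3*c) (s^8*c + s^4*c) (s^6*c + s^4*c + s^2*c + s^2 + 1) (s^7*c + s^3*c + s^3) := by
    rw [comb_mul_b hb' hbb]
    congr 1
    · linear_combination (s^3 + s) * h2
    · linear_combination (s^4) * h2
    · linear_combination (-s^6*c - s^4*c - s^2*c - s^2 - 1) * h2
    · linear_combination (-s^7*c - s^3*c - s^3) * h2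
  have k12 : comb a b (s^7*c + s^5*c + s^3*c) (s^8*c + s^4*c) (s^6*c + s^4*c + s^2*c + s^2 + 1) (s^7*c + s^3*c + s^3) * b' =
      comb a b (s^8*c + s^2*c + s^2 + 1) (s^9*c + s^7*c + s^5*c + s^3*c + s^3) (s^7*c + s^5*c + s^3*c) (s^8*c + s^4*c) := by
    rw [comb_mul_b hb' hbb]
    congr 1
    · linear_combination (s^6*c + s^4*c) * h2
    · linear_combination (0) * h2
    · linear_combination (-s^7*c - s^5*c - s^3*c) * h2
    · linear_combination (-s^8*c - s^4*c) * h2
  have k13 : comb a b (s^8*c + s^2*c + s^2 + 1) (s^9*c + s^7*c + s^5*c + s^3*c + s^3) (s^7*c + s^5*c + s^3*c) (s^8*c + s^4*c) * b' =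
      comb a b (s^9*c + s^7*c + s^5*c + s^3 + s) (s^10*c + s^6*c + s^4) (s^8*c + s^2*c + s^2 + 1) (s^9*c + s^7*c + s^5*c + s^3*c + s^3) := by
    rw [comb_mul_b hb' hbb]
    congr 1
    · linear_combination (s^3*c) * h2
    · linear_combination (s^8*c + s^4*c) * h2
    · linear_combination (-s^8*c - s^2*c - s^2 - 1) * h2
    · linear_combination (-s^9*c - s^7*c - s^5*c - s^3*c - s^3) * h2
  have k14 : comb a b (s^9*c + s^7*c + s^5*c + s^3 + s) (s^10*c + s^6*c + s^4) (s^8*c + s^2*c + s^2 + 1) (s^9*c + s^7*c + s^5*c + s^3*c + s^3) * a =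
      comb a b (s^8*c^2 + s^8*c + s^4*c + s^2*c^2 + s^2*c + c) (s^9*c^2 + s^9*c + s^7*c^2 + s^7*c + s^5*c^2 + s^3*c^2) (s^7*c + s^5*c + s) (s^8*c + s^2*c + s^2 + 1) := by
    rw [comb_mul_a haa hba]
    congr 1
    · linear_combination (-s^10*c - s^8*c^2 - s^8*c - s^6*c - s^4*c - s^4 - s^2*c^2 - s^2*c - c) * h2
    · linear_combination (s^11*c - s^9*c^2 + s^9*c - s^7*c^2 + s^7*c - s^5*c^2 + s^5*c + s^5 - s^3*c^2 + s^3 + s) * h2
    · linear_combination (s^9*c + s^3*c + s^3) * h2
    · linear_combination (-s^8*c - s^2*c - s^2 - 1) * h2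
  have k15 : comb a b (s^8*c^2 + s^8*c + s^4*c + s^2*c^2 + s^2*c + c) (s^9*c^2 + s^9*c + s^7*c^2 + s^7*c + s^5*c^2 + s^3*c^2) (s^7*c + s^5*c + s) (s^8*c + s^2*c + s^2 + 1) * b' =
      comb a b (s^9*c^2 + s^9*c + s^7*c + s^3*c^2 + s^3*c + s*c + s) (s^10*c^2 + s^10*c + s^8*c^2 + s^6*c^2 + s^4*c^2 + s^2*c + s^2 + 1) (s^8*c^2 + s^8*c + s^4*c + s^2*c^2 + s^2*c + c) (s^9*c^2 + s^9*c + s^7*c^2 + s^7*c + s^5*c^2 + s^3*c^2) := by
    rw [comb_mul_b hb' hbb]
    congr 1
    · linear_combination (s^5*c) * h2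
    · linear_combination (s^8*c) * h2
    · linear_combination (-s^8*c^2 - s^8*c - s^4*c - s^2*c^2 - s^2*c - c) * h2
    · linear_combination (-s^9*c^2 - s^9*c - s^7*c^2 - s^7*c - s^5*c^2 - s^3*c^2) * h2
  have h0 : (1 : Matrix (Fin 2) (Fin 2) R) = comb a b 1 0 0 0 := by
    unfold comb; module
  have key : a ^ 6 * b' ^ 2 * a ^ 2 * b' ^ 3 * a * b' =
      comb a b (s^9*c^2 + s^9*c + s^7*c + s^3*c^2 + s^3*c + s*c + s) (s^10*c^2 + s^10*c + s^8*c^2 + s^6*c^2 + s^4*c^2 + s^2*c + s^2 + 1) (s^8*c^2 + s^8*c + s^4*c + s^2*c^2 + s^2*c + c) (s^9*c^2 + s^9*c + s^7*c^2 + s^7*c + s^5*c^2 + s^3*c^2) := by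
    have e : a ^ 6 * b' ^ 2 * a ^ 2 * b' ^ 3 * a * b' =
      1 * a * a * a * a * a * a * b' * b' * a * a * b' * b' * b' * a * b' := by
      simp only [pow_succ, pow_zero, one_mul, mul_assoc]
    rw [e, h0, k1, k2, k3, k4, k5, k6, k7, k8, k9, k10, k11, k12, k13, k14, k15]
  rw [key, trace_comb a b s c ha hb hab]
  linear_combination (s^11*c^2 + s^11*c - s^9*c^3 + 2*s^9*c^2 + 2*s^9*c - 2*s^7*c^3 - s^7*c^2 + s^7*c - 2*s^5*c^3 - 2*s^5*c^2 - s^5*c - s^3*c^3 + s*c + s) * h2

end algebra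

section field

variable {F : Type*} [Field F] {n : ℕ}

lemma two_eq_zero (hF : Nat.card F = 2 ^ n) : (2 : F) = 0 := by
  have hfin : Finite F := Nat.finite_of_card_ne_zero (by rw [hF]; positivity)
  have := Fintype.ofFinite F
  have h : ((Nat.card F : ℕ) : F) = 0 := by
    rw [Nat.card_eq_fintype_card]; exact Nat.cast_card_eq_zero F
  rw [hF] at h
  push_cast at h
  have hn0 : n ≠ 0 := by
    rintro rfl
    simp at h
  exact (pow_eq_zero_iff hn0).1 h

lemma coprime_seven (hn : ¬ 3 ∣ n) : Nat.Coprime 7 (2 ^ n - 1) := by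
  rw [Nat.Prime.coprime_iff_not_dvd (by norm_num)]
  intro h
  have h1 : 1 ≤ 2 ^ n := Nat.one_le_two_pow
  have h7 : 2 ^ n % 7 = 1 := by omega
  have h8 : 2 ^ n % 7 = 2 ^ (n % 3) % 7 := by
    conv_lhs => rw [← Nat.div_add_mod n 3, pow_add, pow_mul]
    rw [Nat.mul_mod, Nat.pow_mod]
    simp
  rw [h8] at h7
  have h9 : n % 3 = 1 ∨ n % 3 = 2 := by omega
  rcases h9 with h9 | h9 <;> rw [h9] at h7 <;> simp at h7

lemma no_root (hn : ¬ 3 ∣ n) (hF : Nat.card F = 2 ^ n) (θ : F) : θ ^ 3 + θ + 1 ≠ 0 := by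
  intro h
  have h2 := two_eq_zero hF
  have hfin : Finite F := Nat.finite_of_card_ne_zero (by rw [hF]; positivity)
  have := Fintype.ofFinite F
  have h0 : θ ≠ 0 := by
    rintro rfl
    simp at h
  have h7 : θ ^ 7 = 1 := by
    linear_combination (θ ^ 4 - θ ^ 2 - θ + 1) * h + (θ ^ 2 - 1) * h2
  have hc : θ ^ (2 ^ n - 1) = 1 := by
    rw [← hF, Nat.card_eq_fintype_card]
    exact FiniteField.pow_card_sub_one_eq_one θ h0
  have h1 : θ = 1 := by
    have h := pow_gcd_eq_one.2 ⟨h7, hc⟩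
    rwa [coprime_seven hn, pow_one] at h
  rw [h1] at h
  have : (1 : F) = 0 := by linear_combination h - h2
  exact one_ne_zero this

end field

section word

/-- The value of the word `x⁶ y x⁻² y⁻¹ x² y x⁻³ y⁻¹ x y x⁻¹ y⁻¹` at a pair of group elements. -/
def wordVal {G : Type*} [Group G] (x y : G) : G :=
  x ^ 6 * y * (x ^ 2)⁻¹ * y⁻¹ * x ^ 2 * y * (x ^ 3)⁻¹ * y⁻¹ * x * y * x⁻¹ * y⁻¹

/-- The word itself, as an element of the free group. -/
def wrd : FreeGroup (Fin 2) :=
  FreeGroup.mk [(0, true), (0, true), (0, true), (0, true), (0, true), (0, true), (1, true),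
    (0, false), (0, false), (1, false), (0, true), (0, true), (1, true), (0, false), (0, false),
    (0, false), (1, false), (0, true), (1, true), (0, false), (1, false)]

lemma lift_wrd {G : Type*} [Group G] (x y : G) : FreeGroup.lift ![x, y] wrd = wordVal x y := by
  rw [wrd, FreeGroup.lift_mk]
  simp only [List.map_cons, List.map_nil, List.prod_cons, List.prod_nil, cond_true, cond_false,
    Matrix.cons_val_zero, Matrix.cons_val_one, mul_one]
  unfold wordVal
  simp only [pow_succ, pow_zero, one_mul, _root_.mul_inv_rev, mul_assoc]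

lemma map_wordVal {G H : Type*} [Group G] [Group H] (φ : G →* H) (x y : G) :
    φ (wordVal x y) = wordVal (φ x) (φ y) := by
  simp only [wordVal, map_mul, map_pow, map_inv]

lemma wordVal_eq {G : Type*} [Group G] (x y : G) :
    wordVal x y = x ^ 6 * ((y * x * y⁻¹)⁻¹) ^ 2 * x ^ 2 * ((y * x * y⁻¹)⁻¹) ^ 3 * x *
      (y * x * y⁻¹)⁻¹ := by
  have h : (y * x * y⁻¹)⁻¹ = y * x⁻¹ * y⁻¹ := by group
  rw [h, conj_pow, conj_pow]
  unfold wordVal
  group

lemma length_wrd : wrd.toWord.length = 21 := by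
  rw [wrd, FreeGroup.toWord_mk]
  decide

/-- `wrd` is not a proper power. -/
lemma not_pow_wrd (v : FreeGroup (Fin 2)) (k : ℕ) (hk : 2 ≤ k) : v ^ k ≠ wrd := by
  intro h
  -- the exponent sum of `x` in `wrd` is `3`, so `k = 3`
  let φ : FreeGroup (Fin 2) →* Multiplicative ℤ :=
    FreeGroup.lift ![Multiplicative.ofAdd 1, 1]
  have h1 : φ (v ^ k) = Multiplicative.ofAdd 3 := by
    rw [h]
    change FreeGroup.lift ![Multiplicative.ofAdd 1, 1] wrd = _
    rw [lift_wrd]
    rfl
  have h2 : (k : ℤ) * Multiplicative.toAdd (φ v) = 3 := by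
    rw [map_pow] at h1
    have := congrArg Multiplicative.toAdd h1
    rw [toAdd_pow, toAdd_ofAdd, nsmul_eq_mul] at this
    exact this
  have h3 : k = 3 := by
    have hd : (k : ℤ) ∣ 3 := ⟨_, h2.symm⟩
    have hd' : k ∣ 3 := by exact_mod_cast hd
    rcases (Nat.dvd_prime Nat.prime_three).1 hd' with h | h
    · omega
    · exact h
  subst h3
  -- in `S₅` the value of `wrd` at a suitable pair is a `3`-cycle times a `2`-cycle, not a cube
  let X : Equiv.Perm (Fin 5) := c[0, 1] * c[2, 3, 4]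
  let Y : Equiv.Perm (Fin 5) := c[0, 2] * c[1, 3]
  have h4 : (FreeGroup.lift ![X, Y] v) ^ 3 = wordVal X Y := by
    rw [← map_pow, h, lift_wrd]
  have h5 : ∀ σ : Equiv.Perm (Fin 5), σ ^ 3 ≠ wordVal X Y := by decide +kernel
  exact h5 _ h4

end word

section special

variable {F : Type*} [Field F]

/-- The trace of the value of the word on `SL(2, F)`, `F` of characteristic `2`. -/
lemma trace_wordVal (h2 : (2 : F) = 0) (X Y : Matrix.SpecialLinearGroup (Fin 2) F) :
    ∃ g : F, ((wordVal X Y : Matrix.SpecialLinearGroup (Fin 2) F) : Matrix (Fin 2) (Fin 2) F).trace =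
      g ^ 3 + g := by
  set B : Matrix.SpecialLinearGroup (Fin 2) F := Y * X * Y⁻¹ with hB
  set a : Matrix (Fin 2) (Fin 2) F := (X : Matrix (Fin 2) (Fin 2) F) with ha
  set b : Matrix (Fin 2) (Fin 2) F := (B : Matrix (Fin 2) (Fin 2) F) with hb
  have hda : a 0 0 * a 1 1 - a 0 1 * a 1 0 = 1 := by
    have := X.det_coe
    rwa [Matrix.det_fin_two] at this
  have hdb : b 0 0 * b 1 1 - b 0 1 * b 1 0 = 1 := by
    have := B.det_coe
    rwa [Matrix.det_fin_two] at this
  have htb : b.trace = a.trace := by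
    have h1 : b = (Y : Matrix (Fin 2) (Fin 2) F) * a *
        ((Y⁻¹ : Matrix.SpecialLinearGroup (Fin 2) F) : Matrix (Fin 2) (Fin 2) F) := by
      rw [hb, hB, Matrix.SpecialLinearGroup.coe_mul, Matrix.SpecialLinearGroup.coe_mul]
    rw [h1, Matrix.trace_mul_comm, ← mul_assoc, ← Matrix.SpecialLinearGroup.coe_mul, inv_mul_cancel,
      Matrix.SpecialLinearGroup.coe_one, one_mul]
  have hta : a.trace = a 0 0 + a 1 1 := Matrix.trace_fin_two a
  have htb' : b 0 0 + b 1 1 = a 0 0 + a 1 1 := by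
    rw [← Matrix.trace_fin_two b, htb, hta]
  set s : F := a 0 0 + a 1 1 with hs
  set b' : Matrix (Fin 2) (Fin 2) F := s • 1 - b with hb'
  have hinv : ((B⁻¹ : Matrix.SpecialLinearGroup (Fin 2) F) : Matrix (Fin 2) (Fin 2) F) = b' := by
    rw [Matrix.SpecialLinearGroup.coe_inv, Matrix.adjugate_fin_two, hb']
    ext i j
    fin_cases i <;> fin_cases j <;> simp [← hb, ← htb']
  have haa : a * a = s • a - 1 := by
    ext i j
    fin_cases i <;> fin_cases j <;> simp [Matrix.mul_apply, Fin.sum_univ_two, hs]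
    · linear_combination -hda
    · ring
    · ring
    · linear_combination -hda
  have hbb : b * b = s • b - 1 := by
    ext i j
    fin_cases i <;> fin_cases j <;> simp [Matrix.mul_apply, Fin.sum_univ_two, ← htb']
    · linear_combination -hdb
    · ring
    · ring
    · linear_combination -hdb
  have hba : b * a = -(a * b) + s • a + s • b - (s ^ 2 - (a * b).trace) • 1 := by
    have e1 : b 1 1 = a 0 0 + a 1 1 - b 0 0 := by linear_combination htb'
    ext i j
    fin_cases i <;> fin_cases j <;>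
      simp [Matrix.mul_apply, Fin.sum_univ_two, hs, Matrix.trace_fin_two, e1] <;> ring
  refine ⟨s ^ 3 * (s ^ 2 - (a * b).trace) + s * (s ^ 2 - (a * b).trace) + s, ?_⟩
  rw [wordVal_eq]
  simp only [Matrix.SpecialLinearGroup.coe_mul, Matrix.SpecialLinearGroup.coe_pow]
  rw [← hB, hinv, ← ha]
  exact trace_word h2 a b b' s (s ^ 2 - (a * b).trace) hta (by rw [htb, hta]) (by ring) haa hbb
    hba hb'

/-- For `F` with `2 ^ n` elements, `3 ∤ n`, the word map is not surjective on `PSL(2, F)`. -/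
lemma not_surj {n : ℕ} (hn : ¬ 3 ∣ n) (hF : Nat.card F = 2 ^ n) :
    ¬ Function.Surjective (fun gh : PSL(2, F) × PSL(2, F) =>
      FreeGroup.lift ![gh.1, gh.2] wrd) := by
  intro hsurj
  have h2 := two_eq_zero hF
  let T : Matrix.SpecialLinearGroup (Fin 2) F := ⟨!![0, 1; 1, 1], by
    rw [Matrix.det_fin_two]
    simp only [Matrix.of_apply, Matrix.cons_val', Matrix.cons_val_zero, Matrix.cons_val_one,
      Matrix.cons_val_fin_one]
    linear_combination -h2⟩
  obtain ⟨⟨g, h⟩, hgh⟩ := hsurj (QuotientGroup.mk T)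
  obtain ⟨X, rfl⟩ := QuotientGroup.mk_surjective g
  obtain ⟨Y, rfl⟩ := QuotientGroup.mk_surjective h
  simp only [lift_wrd] at hgh
  have hmap := map_wordVal (QuotientGroup.mk' (Subgroup.center (Matrix.SpecialLinearGroup (Fin 2) F))) X Y
  simp only [QuotientGroup.mk'_apply] at hmap
  rw [← hmap, QuotientGroup.eq, Matrix.SpecialLinearGroup.mem_center_iff] at hgh
  obtain ⟨r, hr, hrT⟩ := hgh
  have hr1 : r = 1 := by
    have h3 : (r - 1) ^ 2 = 0 := by
      have : r ^ 2 = 1 := by simpa using hr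
      linear_combination this + (1 - r) * h2
    have h4 := pow_eq_zero_iff (two_ne_zero) |>.1 h3
    exact sub_eq_zero.1 h4
  rw [hr1, map_one] at hrT
  have hT : (wordVal X Y) = T := by
    have : (wordVal X Y)⁻¹ * T = 1 := by
      apply Subtype.ext
      exact hrT.symm
    exact (inv_mul_eq_one.1 this)
  obtain ⟨θ, hθ⟩ := trace_wordVal h2 X Y
  rw [hT] at hθ
  have htr : ((T : Matrix.SpecialLinearGroup (Fin 2) F) : Matrix (Fin 2) (Fin 2) F).trace = 1 := by
    rw [Matrix.trace_fin_two]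
    simp [T]
  rw [htr] at hθ
  exact no_root hn hF θ (by linear_combination -hθ + h2)

end special

/-- There is a word `w` in the free group of rank two, of odd length and not a proper power, such
that for every `n` not divisible by `3` the word map of `w` is not surjective on `PSL(2, F)` for
the field `F` with `2 ^ n` elements.  In particular it is non-surjective for infinitely many
prime powers `q`. -/
theorem result :
    ∃ w : FreeGroup (Fin 2), Odd w.toWord.length ∧
      (∀ (v : FreeGroup (Fin 2)) (k : ℕ), 2 ≤ k → v ^ k ≠ w) ∧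
      (∀ n : ℕ, ¬ 3 ∣ n → ∀ (F : Type) [Field F], Nat.card F = 2 ^ n →
        ¬ Function.Surjective (fun gh : PSL(2, F) × PSL(2, F) =>
          FreeGroup.lift ![gh.1, gh.2] w)) ∧
      {q : ℕ | IsPrimePow q ∧ ∀ (F : Type) [Field F], Nat.card F = q →
        ¬ Function.Surjective (fun gh : PSL(2, F) × PSL(2, F) =>
          FreeGroup.lift ![gh.1, gh.2] w)}.Infinite := by
  refine ⟨wrd, ?_, not_pow_wrd, fun n hn F _ hF => not_surj hn hF, ?_⟩
  · rw [length_wrd]
    decide
  · refine Set.infinite_of_injective_forall_mem (f := fun m : ℕ => 2 ^ (3 * m + 1)) ?_ ?_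
    · intro i j hij
      have := Nat.pow_right_injective (le_refl 2) hij
      omega
    · intro m
      refine ⟨?_, fun F _ hF => not_surj (n := 3 * m + 1) (by omega) hF⟩
      exact (Nat.prime_two.isPrimePow).pow (by omega)

end Pool.Agent.Results.MP_215b2d_al.OddWord
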